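import Pool.Agent.H79.RD.FIN
import Pool.Agent.H46.RD.AB
import Pool.Agent.H46.RD.P3
import Pool.Agent.H46.RD.P5
import Pool.Agent.H14.RD.XIAC
import Pool.Agent.H14.RD.UBN
import Pool.Agent.H74.RD.AG
import Pool.Agent.H74.RD.P1
import Pool.Agent.H90.RD.AL
import Pool.Agent.H81.RDH.AQ
import Pool.Agent.H60.RD.CN
import Pool.Agent.H63.RD.Main
import Pool.Agent.H84.RD.EX
import Pool.Agent.H84.RD.NB
import Pool.Agent.H80.RD.RS
import Pool.Agent.H69.RD.LF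
import Pool.Agent.H69.RD.FS
import Pool.Agent.H69.RD.P2
import Pool.Agent.H16.RD.P4

/-! Assembly. -/

namespace Pool.Agent.H79.RD

theorem main : T_MAIN := by
  have hLF : T_LF := Pool.Agent.H69.RD.pf_LF
  have hFS : T_FS := Pool.Agent.H69.RD.pf_FS
  have hP4 : T_P4 := Pool.Agent.H16.RD.pf_P4
  have hUB : T_UB := Pool.Agent.H14.RD.pf_UB
  have hUN : T_UN := Pool.Agent.H14.RD.pf_UN
  have hEX : T_EX := Pool.Agent.H84.RD.pf_EX hUB
  have hNB : T_NB := Pool.Agent.H84.RD.pf_NB hUB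
  have hXI : T_XI := Pool.Agent.H14.RD.pf_XI hUN hEX hNB
  have hAC : T_AC := Pool.Agent.H14.RD.pf_AC
  have hAL : T_AL := Pool.Agent.H90.RD.pf_AL hAC
  have hAG : T_AG := Pool.Agent.H74.RD.pf_AG
  have hAQ : T_AQ := Pool.Agent.H81.RDH.pf_AQ
  have hIN : T_IN := Pool.Agent.H60.RD.pf_IN
  have hLB : T_LB := Pool.Agent.H60.RD.pf_LB
  have hCN : T_CN := Pool.Agent.H60.RD.pf_CN
  have hDI : T_DI := Pool.Agent.H63.RDM.pf_DI
  have hST : T_ST := Pool.Agent.H63.RDM.pf_ST hAC hAG hAQ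
  have hRS : T_RS := pf_RS hAL hAG hLB hFS
  have hMA : T_MA := Pool.Agent.H63.RDM.pf_MA hLF hIN hST hRS hDI
  have hP1 : T_P1 := Pool.Agent.H74.RD.pf_P1
  have hP2 : T_P2 := Pool.Agent.H69.RD.pf_P2 hP1
  have hP3 : T_P3 := Pool.Agent.H46.RD.pf_P3 hP1 hP2
  have hP5 : T_P5 := Pool.Agent.H46.RD.pf_P5
  have hAB : T_AB := Pool.Agent.H46.RD.pf_AB hXI hMA hCN
  exact pf_FIN hAB hP3 hP4 hP5

end Pool.Agent.H79.RD
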