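import Mathlib

/-!
# Dag-like resolution of bounded depth and the strong exponential time hypothesis: definitions

Everything is over a finite set `V` of variables.  A literal is a pair (variable, sign).
The formulas are built from `N` disjoint blocks of `b` variables: `φ i j` is the `j`-th variable
of block `i`.
-/

namespace Pool.Agent.H79.RD

open Finset

/-- A clause is a finite set of literals; a literal is a pair (variable, sign). -/
abbrev Clause (V : Type) : Type := Finset (V × Bool)

/-- The assignment `z` falsifies every literal of `C`. -/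
def Falsified {V : Type} (C : Clause V) (z : V → Bool) : Prop := ∀ l ∈ C, z l.1 ≠ l.2

/-- A dag-like resolution refutation of `F` with `S` lines and depth at most `D`.
Every line is a weakening of a clause of `F`, or follows from two lines of smaller depth by
the resolution rule (with weakening) on a variable `x`; the lines can be used many times.
Some line of depth at most `D` is the empty clause. -/
structure Refutation {V : Type} [DecidableEq V] (F : Finset (Clause V)) (S D : ℕ) where
  /-- the lines -/
  C : Fin S → Clause V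
  /-- the depth of a line -/
  dep : Fin S → ℕ
  rule : ∀ i, (∃ c ∈ F, c ⊆ C i) ∨ ∃ a b x, dep a < dep i ∧ dep b < dep i ∧
    C a ⊆ insert (x, true) (C i) ∧ C b ⊆ insert (x, false) (C i)
  root : ∃ i, C i = ∅ ∧ dep i ≤ D

section blocks

variable {V : Type} [DecidableEq V] {N b k : ℕ}

/-- The blocks are disjoint and each has `b` different variables. -/
def Inj2 (φ : Fin N → Fin b → V) : Prop := ∀ i j i' j', φ i j = φ i' j' → i = i' ∧ j = j'

/-- The block values of an assignment. -/
def bv (φ : Fin N → Fin b → V) (z : V → Bool) : Fin N → Fin b → Bool := fun i j => z (φ i j)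

/-- The index set of the forbidden patterns: `k` blocks and `k` values. -/
abbrev Idx (N b k : ℕ) : Type := (Fin k → Fin N) × (Fin k → Fin b → Bool)

/-- The clause that says: the blocks `π.1` do not have the values `π.2`. -/
def clauseOf (φ : Fin N → Fin b → V) (π : Idx N b k) : Clause V :=
  (Finset.univ : Finset (Fin k × Fin b)).image (fun q => (φ (π.1 q.1) q.2, !(π.2 q.1 q.2)))

/-- The bits of block `i` outside `Rv`. -/
def unr (φ : Fin N → Fin b → V) (Rv : Finset V) (i : Fin N) : Finset (Fin b) :=
  Finset.univ.filter (fun j => φ i j ∉ Rv)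

/-- The blocks with less than `g` bits outside `Rv`. -/
def Act (φ : Fin N → Fin b → V) (g : ℕ) (Rv : Finset V) : Finset (Fin N) :=
  Finset.univ.filter (fun i => (unr φ Rv i).card < g)

/-- The variables of a clause. -/
def vars (C : Clause V) : Finset V := C.image Prod.fst

/-- No forbidden pattern inside `A` is realised by `ζ`. -/
def Sat (Forb : Finset (Idx N b k)) (ζ : Fin N → Fin b → Bool) (A : Finset (Fin N)) : Prop :=
  ∀ σ : Fin k → Fin N, (∀ j, σ j ∈ A) → (σ, ζ ∘ σ) ∉ Forb

/-- An event: at phase `p` the value of block `i` is replaced by `x` because of the violated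
pattern at the blocks `s`. -/
structure Ev (N b k : ℕ) where
  p : ℕ
  i : Fin N
  x : Fin b → Bool
  s : Fin k → Fin N

/-- The block values after the events (the last event is the head of the list). -/
def cur (ζ0 : Fin N → Fin b → Bool) : List (Ev N b k) → (Fin N → Fin b → Bool)
  | [] => ζ0
  | e :: l => Function.update (cur ζ0 l) e.i e.x

/-- The violated patterns of the events. -/
def prs (ζ0 : Fin N → Fin b → Bool) : List (Ev N b k) → List (Idx N b k)
  | [] => []
  | e :: l => (e.s, cur ζ0 l ∘ e.s) :: prs ζ0 l

/-- Property (U): every assignment realises a forbidden pattern. -/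
def PU (Forb : Finset (Idx N b k)) : Prop := ∀ ζ : Fin N → Fin b → Bool, ∃ σ, (σ, ζ ∘ σ) ∈ Forb

open Classical in
/-- The values of block `i` which agree with `ζ i` outside `U` and for which no forbidden pattern
through `i` and inside `insert i A` is realised. -/
noncomputable def allowed (Forb : Finset (Idx N b k)) (ζ : Fin N → Fin b → Bool)
    (A : Finset (Fin N)) (i : Fin N) (U : Finset (Fin b)) : Finset (Fin b → Bool) :=
  Finset.univ.filter (fun x => (∀ j, j ∉ U → x j = ζ i j) ∧
    ∀ σ : Fin k → Fin N, (∀ j, σ j ∈ insert i A) → (∃ j, σ j = i) →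
      (σ, Function.update ζ i x ∘ σ) ∉ Forb)

/-- Property (E): a block outside a small set `A` can be given at least `R` allowed values by
changing only the bits in any set `U` of `g` bits. -/
def PE (Forb : Finset (Idx N b k)) (a g R : ℕ) : Prop :=
  ∀ (ζ : Fin N → Fin b → Bool) (A : Finset (Fin N)) (i : Fin N) (U : Finset (Fin b)),
    A.card ≤ a → i ∉ A → U.card = g → R ≤ (allowed Forb ζ A i U).card

/-- Property (N): a history with `m` phases, small active sets and pairwise different violated
patterns has less than `R` events. -/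
def PN (Forb : Finset (Idx N b k)) (a m R : ℕ) : Prop :=
  ∀ (A : ℕ → Finset (Fin N)), (∀ q, (A q).card ≤ a) →
    ∀ (ζ0 : Fin N → Fin b → Bool) (evs : List (Ev N b k)),
      (∀ e ∈ evs, e.p < m ∧ ∀ j, e.s j ∈ A e.p) →
      (∀ π ∈ prs ζ0 evs, π ∈ Forb) → (prs ζ0 evs).Nodup → evs.length < R

/-- A history: the events lead from `ζ0` to `ζ`, all violated patterns are forbidden, pairwise
different and none is realised by `ζ`; the events up to phase `p` live in the active sets. -/
def Hist (Forb : Finset (Idx N b k)) (A : ℕ → Finset (Fin N)) (ζ0 ζ : Fin N → Fin b → Bool)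
    (p : ℕ) (evs : List (Ev N b k)) : Prop :=
  cur ζ0 evs = ζ ∧ (∀ e ∈ evs, e.p ≤ p ∧ ∀ j, e.s j ∈ A e.p) ∧
    (∀ π ∈ prs ζ0 evs, π ∈ Forb) ∧ (prs ζ0 evs).Nodup ∧
    (∀ π ∈ prs ζ0 evs, π.2 ≠ ζ ∘ π.1)

/-- The clause has at least `a0` blocks with less than `2 * g` missing bits. -/
def Wide (φ : Fin N → Fin b → V) (g a0 : ℕ) (C : Clause V) : Prop :=
  a0 ≤ ((Finset.univ : Finset (Fin N)).filter (fun i => (unr φ (vars C) i).card < 2 * g)).card

/-- The invariant at a line with clause `C` and depth `d`. `z` is the hidden assignment, `Rv` the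
set of read variables, `St` the set of read variables at the start of the phase `p`. -/
structure StateAt (φ : Fin N → Fin b → V) (Forb : Finset (Idx N b k)) (g a a0 D L : ℕ)
    (z0 : V → Bool) (C : Clause V) (d p : ℕ) (z : V → Bool) (Rv St : Finset V)
    (A : ℕ → Finset (Fin N)) (evs : List (Ev N b k)) : Prop where
  fals : Falsified C z
  vrs : ∀ l ∈ C, l.1 ∈ Rv
  sat : Sat Forb (bv φ z) (Act φ g Rv)
  cardA : ∀ q, (A q).card ≤ a
  ap : A p = Act φ g Rv
  hist : Hist Forb A (bv φ z0) (bv φ z) p evs
  off : ∀ u, (∀ i j, u ≠ φ i j) → z u = z0 u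
  sub : St ⊆ Rv
  stc : (Act φ g St).card < a0
  stu : ∀ i, i ∉ Act φ g St → 2 * g ≤ (unr φ St i).card
  pot : (Rv \ St).card + d + p * L ≤ D

end blocks

end Pool.Agent.H79.RD
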