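import Pool.Agent.H79.RD.Targets

/-! Assembly of the main theorem. -/

namespace Pool.Agent.H79.RD

open Finset

theorem pf_FIN : T_AB → T_P3 → T_P4 → T_P5 → T_MAIN := by
  intro hAB hP3 hP4 hP5 ε hε
  obtain ⟨E, hE8, hE6⟩ : ∃ E : ℕ, 8 ≤ E ∧ (6 : ℝ) ≤ ε * E := by
    refine ⟨max 8 ⌈6 / ε⌉₊, le_max_left _ _, ?_⟩
    have h1 : (6 / ε : ℝ) ≤ (max 8 ⌈6 / ε⌉₊ : ℕ) :=
      (Nat.le_ceil _).trans (by exact_mod_cast le_max_right _ _)
    have h2 := mul_le_mul_of_nonneg_left h1 hε.le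
    rwa [mul_div_cancel₀ _ hε.ne'] at h2
  obtain ⟨K, n0, hEK, hK2, hpar⟩ := hP4 E hE8
  refine ⟨K, max n0 4, ?_⟩
  intro n hn w hw1 hw2
  have hn0 : n0 ≤ n := (le_max_left _ _).trans hn
  have hn4 : 4 ≤ n := (le_max_right _ _).trans hn
  have hlog : 0 < Nat.log 2 n := Nat.log_pos (by norm_num) (by omega)
  have hKl : 0 < K * Nat.log 2 n := Nat.mul_pos (by omega) hlog
  obtain ⟨N, b, g, k, a, a0, R, h, m, q, s, s', ⟨hN, hk, hg, hgb, ha0, ha0a, hbN, hkb, hN2, hD,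
    hhR⟩, ⟨hq, hq1, hq2, hs1, hs2, hs3, hh⟩, ⟨hX, hY⟩⟩ :=
    hpar n hn0 w (n * w / (K * Nat.log 2 n)) hw1 hw2
      (by
        have := Nat.div_mul_le_self (n * w) (K * Nat.log 2 n)
        calc K * (n * w / (K * Nat.log 2 n)) * Nat.log 2 n
            = n * w / (K * Nat.log 2 n) * (K * Nat.log 2 n) := by ring
          _ ≤ n * w := this)
  obtain ⟨T, hT, hT1, hT2, hT3⟩ := hP3 N b k a g R h m q s s' hN hq hq1 hq2 hs1 hs2 hs3 hh
  have hb : 0 < b := by omega
  have hlt : ∀ (i : Fin N) (j : Fin b), b * i.val + j.val < n := by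
    intro i j
    have h1 : b * i.val + b ≤ b * N := by
      have := Nat.mul_le_mul_left b (Nat.succ_le_of_lt i.isLt)
      calc b * i.val + b = b * (i.val + 1) := by ring
        _ ≤ b * N := this
    have := j.isLt
    omega
  obtain ⟨F, hF1, hF2, hF3, hF4⟩ := hAB (Fin n) N b k g a a0 (n * w / (K * Nat.log 2 n)) m R T h
    (fun i j => ⟨b * i.val + j.val, hlt i j⟩)
    (by
      intro i j i' j' hij
      have h1 : b * i.val + j.val = b * i'.val + j'.val := by simpa using congrArg Fin.val hij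
      have hi : i.val = i'.val := by
        have e1 : (b * i.val + j.val) / b = i.val := by
          rw [Nat.mul_add_div hb, Nat.div_eq_of_lt j.isLt, add_zero]
        have e2 : (b * i'.val + j'.val) / b = i'.val := by
          rw [Nat.mul_add_div hb, Nat.div_eq_of_lt j'.isLt, add_zero]
        rw [← e1, h1, e2]
      refine ⟨Fin.ext hi, Fin.ext ?_⟩
      rw [hi] at h1
      omega)
    hk hg hgb ha0 ha0a hD hT hhR hT1 hT2 hT3
  refine ⟨F, ?_, ?_, hF3, ?_⟩
  · calc F.card ≤ N ^ k * 2 ^ (b * k) := hF1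
      _ ≤ (2 ^ b) ^ k * 2 ^ (b * k) := Nat.mul_le_mul_right _ (Nat.pow_le_pow_left hN2 k)
      _ = 2 ^ (2 * (k * b)) := by rw [← pow_mul, ← pow_add]; ring_nf
      _ ≤ 2 ^ (2 * w) := Nat.pow_le_pow_right (by norm_num) (by omega)
  · intro C hC
    exact (hF2 C hC).trans hkb
  · intro S D hDw hR
    have hDD : D ≤ n * w / (K * Nat.log 2 n) := by
      rw [Nat.le_div_iff_mul_le hKl]
      calc D * (K * Nat.log 2 n) = K * D * Nat.log 2 n := by ring
        _ ≤ n * w := hDw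
    exact hP5 ε E n (a0 * (b - 2 * g)) (N + b * R) S hε (by omega) hE6 hX hY (hF4 S D hDD hR)

end Pool.Agent.H79.RD
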