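import Pool.Agent.H82.RD.Targets

/-!
Module MRS of the project RD on `MP_7ecdd4_nt`: restriction of the machine to a coset.
-/

set_option autoImplicit false

namespace Pool.Agent.H79.RD

open Pool.Agent.H82.RD

theorem pf_MRS (hUCO : T_UCO) : T_MRS := by
  classical
  intro q _ u ι S W π den num ζ κ e g D H U S' hM hS hU
  obtain ⟨J, c, hJ⟩ := hUCO q u U
  obtain ⟨h1, h2, h3, h4, h5, h6, h7, h8⟩ := hM
  refine ⟨fun s j => W s (J j), fun s j => num s (J j), fun j => ∑ l, ζ l * c l j,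
    fun s hs => h1 s (hS hs), h2.mono (Finset.coe_subset.2 hS), fun s hs => h3 s (hS hs),
    fun s hs j => h4 s (hS hs) _, fun s hs j => h5 s (hS hs) _, h6, h7, fun s hs s' hs' => ?_⟩
  obtain ⟨z, hz1, hz2⟩ := h8 s (hS hs) s' (hS hs')
  refine ⟨z, hz1, ?_⟩
  have h9 : ∀ l, W s l - W s' l = ∑ j, c l j * (W s (J j) - W s' (J j)) := by
    intro l
    have h10 := hJ _ (hU s hs s' hs') l
    apply PadicInt.ext
    rw [PadicInt.coe_sum]
    rw [h10]
    refine Finset.sum_congr rfl fun j _ => ?_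
    rw [PadicInt.coe_mul]
  have h11 : ∑ j, (∑ l, ζ l * c l j) * (W s (J j) - W s' (J j)) = ∑ l, ζ l * (W s l - W s' l) := by
    simp only [Finset.sum_mul]
    rw [Finset.sum_comm]
    refine Finset.sum_congr rfl fun l _ => ?_
    rw [h9 l, Finset.mul_sum]
    refine Finset.sum_congr rfl fun j _ => ?_
    ring
  rw [h11]
  exact hz2

end Pool.Agent.H79.RD
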