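import Pool.Agent.H79.RD.Defs

/-! Targets of the board `rd_modules`. -/

namespace Pool.Agent.H79.RD

open Finset

/-- The set of indices where `ω` vanishes. -/
def forbOf {I : Type} [Fintype I] {T : ℕ} (ω : I → Fin T) : Finset I :=
  Finset.univ.filter (fun π => (ω π).val = 0)

open Classical in
/-- Number of functions `ω : I → Fin T` with property `P`. -/
noncomputable def cnt {I : Type} [Fintype I] [DecidableEq I] (T : ℕ) (P : (I → Fin T) → Prop) : ℕ :=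
  ((Finset.univ : Finset (I → Fin T)).filter P).card

/-- UB: union bound. -/
def T_UB : Prop := ∀ (I C : Type) [Fintype I] [DecidableEq I] (T r : ℕ) (cfg : Finset C)
    (π : C → Fin r → I), 0 < T →
  cnt (I := I) T (fun ω => ∃ c ∈ cfg, Function.Injective (π c) ∧ ∀ j, (ω (π c j)).val = 0) * T ^ r
    ≤ cfg.card * T ^ Fintype.card I

/-- UN: count of the functions without property (U). -/
def T_UN : Prop := ∀ (N b k T : ℕ), 0 < T →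
  cnt T (fun ω : Idx N b k → Fin T => ¬ PU (forbOf ω)) * T ^ (N ^ k)
    ≤ 2 ^ (b * N) * (T - 1) ^ (N ^ k) * T ^ Fintype.card (Idx N b k)

/-- EX: count of the functions without property (E). -/
def T_EX : Prop := ∀ (N b k T a g R h : ℕ), 0 < T → h + R ≤ 2 ^ g →
  cnt T (fun ω : Idx N b k → Fin T => ¬ PE (forbOf ω) a g R) * T ^ h
    ≤ (2 ^ (b * N) * 2 ^ N * N * 2 ^ b) * (2 ^ g * (a + 1) ^ k) ^ h
      * T ^ Fintype.card (Idx N b k)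

/-- NB: count of the functions without property (N). -/
def T_NB : Prop := ∀ (N b k T a m R : ℕ), 0 < T →
  cnt T (fun ω : Idx N b k → Fin T => ¬ PN (forbOf ω) a m R) * T ^ R
    ≤ (2 ^ (b * N) * 2 ^ (N * m)) * (m * N * 2 ^ b * a ^ k) ^ R
      * T ^ Fintype.card (Idx N b k)

/-- XI: existence of a good set of forbidden patterns. -/
def T_XI : Prop := ∀ (N b k T a g R h m : ℕ), 0 < T → h + R ≤ 2 ^ g →
  4 * 2 ^ (b * N) * (T - 1) ^ (N ^ k) ≤ T ^ (N ^ k) →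
  4 * (2 ^ (b * N) * 2 ^ N * N * 2 ^ b) * (2 ^ g * (a + 1) ^ k) ^ h ≤ T ^ h →
  4 * (2 ^ (b * N) * 2 ^ (N * m)) * (m * N * 2 ^ b * a ^ k) ^ R ≤ T ^ R →
  ∃ Forb : Finset (Idx N b k), PU Forb ∧ PE Forb a g R ∧ PN Forb a m R

/-- AC: activation of one block. -/
def T_AC : Prop := ∀ (N b k a g R m p : ℕ) (Forb : Finset (Idx N b k))
    (A : ℕ → Finset (Fin N)) (ζ0 ζ : Fin N → Fin b → Bool) (evs : List (Ev N b k))
    (i : Fin N) (U : Finset (Fin b)),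
  PE Forb a g R → PN Forb a m R → p < m → (∀ q, (A q).card ≤ a) →
  Hist Forb A ζ0 ζ p evs → Sat Forb ζ (A p) → i ∉ A p → (A p).card + 1 ≤ a → U.card = g →
  ∃ (ζ' : Fin N → Fin b → Bool) (evs' : List (Ev N b k)),
    (∀ i', i' ≠ i → ζ' i' = ζ i') ∧ (∀ j, j ∉ U → ζ' i j = ζ i j) ∧
    Hist Forb (Function.update A p (insert i (A p))) ζ0 ζ' p evs' ∧
    Sat Forb ζ' (insert i (A p))

/-- AL: activation of a set of blocks. -/
def T_AL : Prop := ∀ (N b k a g R m p : ℕ) (Forb : Finset (Idx N b k))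
    (A : ℕ → Finset (Fin N)) (ζ0 ζ : Fin N → Fin b → Bool) (evs : List (Ev N b k))
    (B : Finset (Fin N)) (U : Fin N → Finset (Fin b)),
  PE Forb a g R → PN Forb a m R → p < m → (∀ q, (A q).card ≤ a) →
  Hist Forb A ζ0 ζ p evs → Sat Forb ζ (A p) → Disjoint (A p) B → (A p ∪ B).card ≤ a →
  (∀ i ∈ B, (U i).card = g) →
  ∃ (ζ' : Fin N → Fin b → Bool) (evs' : List (Ev N b k)),
    (∀ i, i ∉ B → ζ' i = ζ i) ∧ (∀ i ∈ B, ∀ j, j ∉ U i → ζ' i j = ζ i j) ∧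
    Hist Forb (Function.update A p (A p ∪ B)) ζ0 ζ' p evs' ∧
    Sat Forb ζ' (A p ∪ B)

/-- AG: an assignment with given block values. -/
def T_AG : Prop := ∀ (V : Type) [DecidableEq V] (N b : ℕ) (φ : Fin N → Fin b → V),
  Inj2 φ → ∀ (z : V → Bool) (ζ : Fin N → Fin b → Bool),
  ∃ z' : V → Bool, bv φ z' = ζ ∧ ∀ u, (∀ i j, u ≠ φ i j) → z' u = z u

/-- AQ: the active set after one query. -/
def T_AQ : Prop := ∀ (V : Type) [DecidableEq V] (N b g : ℕ) (φ : Fin N → Fin b → V),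
  Inj2 φ → ∀ (Rv : Finset V) (x : V),
  Act φ g (insert x Rv) = Act φ g Rv ∨
    ∃ i, i ∉ Act φ g Rv ∧ Act φ g (insert x Rv) = insert i (Act φ g Rv) ∧
      (unr φ Rv i).card = g

/-- LF: a state never sits at a leaf. -/
def T_LF : Prop := ∀ (V : Type) [DecidableEq V] (N b k g a a0 D L : ℕ)
    (φ : Fin N → Fin b → V) (Forb : Finset (Idx N b k)) (z0 : V → Bool) (C : Clause V)
    (d p : ℕ) (z : V → Bool) (Rv St : Finset V) (A : ℕ → Finset (Fin N))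
    (evs : List (Ev N b k)),
  1 ≤ g → StateAt φ Forb g a a0 D L z0 C d p z Rv St A evs →
  ∀ c ∈ Forb.image (clauseOf φ), ¬ c ⊆ C

/-- IN: the state at the root. -/
def T_IN : Prop := ∀ (V : Type) [DecidableEq V] (N b k g a a0 D L d : ℕ)
    (φ : Fin N → Fin b → V) (Forb : Finset (Idx N b k)) (z0 : V → Bool),
  1 ≤ k → 1 ≤ g → 2 * g ≤ b → 1 ≤ a0 → d ≤ D →
  StateAt φ Forb g a a0 D L z0 ∅ d 0 z0 ∅ ∅ (fun _ => ∅) []

/-- ST: one step. -/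
def T_ST : Prop := ∀ (V : Type) [DecidableEq V] (N b k g a a0 D L m R : ℕ)
    (φ : Fin N → Fin b → V) (Forb : Finset (Idx N b k)) (z0 : V → Bool)
    (C C1 C2 : Clause V) (x : V)
    (d d1 d2 p : ℕ) (z : V → Bool) (Rv St : Finset V) (A : ℕ → Finset (Fin N))
    (evs : List (Ev N b k)),
  Inj2 φ → 1 ≤ g → D < m * L → PE Forb a g R → PN Forb a m R →
  StateAt φ Forb g a a0 D L z0 C d p z Rv St A evs → (Act φ g Rv).card < a →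
  d1 < d → d2 < d → C1 ⊆ insert (x, true) C → C2 ⊆ insert (x, false) C →
  ∃ (z' : V → Bool) (Rv' : Finset V) (A' : ℕ → Finset (Fin N)) (evs' : List (Ev N b k)),
    StateAt φ Forb g a a0 D L z0 C1 d1 p z' Rv' St A' evs' ∨
    StateAt φ Forb g a a0 D L z0 C2 d2 p z' Rv' St A' evs'

/-- RS: restart at the end of a phase. -/
def T_RS : Prop := ∀ (V : Type) [DecidableEq V] (N b k g a a0 D L m R : ℕ)
    (φ : Fin N → Fin b → V) (Forb : Finset (Idx N b k)) (z0 : V → Bool) (C : Clause V)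
    (d p : ℕ) (z : V → Bool) (Rv St : Finset V) (A : ℕ → Finset (Fin N))
    (evs : List (Ev N b k)),
  Inj2 φ → 1 ≤ g → a0 ≤ a → L = g * (a - a0) → D < m * L → PE Forb a g R → PN Forb a m R →
  StateAt φ Forb g a a0 D L z0 C d p z Rv St A evs → a ≤ (Act φ g Rv).card →
  ¬ Wide φ g a0 C →
  ∃ (z' : V → Bool) (Rv' : Finset V) (A' : ℕ → Finset (Fin N)) (evs' : List (Ev N b k)),
    StateAt φ Forb g a a0 D L z0 C d (p + 1) z' Rv' Rv' A' evs' ∧ (Act φ g Rv').card < a0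

/-- LB: during a phase in which the active set grew from `< a0` to `a` many variables are read. -/
def T_LB : Prop := ∀ (V : Type) [DecidableEq V] (N b g a a0 : ℕ)
    (φ : Fin N → Fin b → V) (Rv St : Finset V),
  Inj2 φ → (Act φ g St).card < a0 → (∀ i, i ∉ Act φ g St → 2 * g ≤ (unr φ St i).card) →
  a ≤ (Act φ g Rv).card → g * (a - a0) ≤ (Rv \ St).card

/-- FS: the fresh start set. -/
def T_FS : Prop := ∀ (V : Type) [DecidableEq V] (N b g : ℕ) (φ : Fin N → Fin b → V),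
  Inj2 φ → 1 ≤ g → ∀ W : Finset V, ∃ St : Finset V, W ⊆ St ∧
    Act φ g St = (Finset.univ.filter (fun i => (unr φ W i).card < 2 * g)) ∧
    (∀ i, i ∉ Act φ g St → 2 * g ≤ (unr φ St i).card)

/-- DI: the final values differ from the first ones in few blocks. -/
def T_DI : Prop := ∀ (N b k : ℕ) (ζ0 : Fin N → Fin b → Bool) (evs : List (Ev N b k)),
  ∃ J : Finset (Fin N), J.card ≤ evs.length ∧ ∀ i, i ∉ J → cur ζ0 evs i = ζ0 i

/-- MA: every assignment leads to a wide line. -/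
def T_MA : Prop := ∀ (V : Type) [DecidableEq V] (N b k g a a0 D L m R S : ℕ)
    (φ : Fin N → Fin b → V) (Forb : Finset (Idx N b k)),
  Inj2 φ → 1 ≤ k → 1 ≤ g → 2 * g ≤ b → 1 ≤ a0 → a0 ≤ a → L = g * (a - a0) → D < m * L →
  PE Forb a g R → PN Forb a m R →
  ∀ (P : Refutation (Forb.image (clauseOf φ)) S D) (z0 : V → Bool),
  ∃ (v : Fin S) (z : V → Bool) (J : Finset (Fin N)),
    Falsified (P.C v) z ∧ Wide φ g a0 (P.C v) ∧ J.card ≤ R ∧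
    ∀ u, (∀ i ∈ J, ∀ j, u ≠ φ i j) → z u = z0 u

/-- CN: the final count. -/
def T_CN : Prop := ∀ (V : Type) [Fintype V] [DecidableEq V] (N b g a0 R S : ℕ)
    (φ : Fin N → Fin b → V) (C : Fin S → Clause V),
  Inj2 φ → 2 * g ≤ b →
  (∀ z0 : V → Bool, ∃ (v : Fin S) (z : V → Bool) (J : Finset (Fin N)),
    Falsified (C v) z ∧ Wide φ g a0 (C v) ∧ J.card ≤ R ∧
    ∀ u, (∀ i ∈ J, ∀ j, u ≠ φ i j) → z u = z0 u) →
  2 ^ (a0 * (b - 2 * g)) ≤ S * 2 ^ (N + b * R)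

/-- P1: `(1 - 1/T)^M ≤ 2^(-s)`. -/
def T_P1 : Prop := ∀ T M s : ℕ, 0 < T → T * s ≤ M → 2 ^ s * (T - 1) ^ M ≤ T ^ M

/-- P2: decay of powers. -/
def T_P2 : Prop := ∀ q a N k s : ℕ, 0 < q → q * a ≤ (q - 1) * N → q * s ≤ k →
  2 ^ s * a ^ k ≤ N ^ k

/-- P3: the three numeric conditions of `T_XI`. -/
def T_P3 : Prop := ∀ N b k a g R h m q s s' : ℕ, 1 ≤ N → 0 < q →
  q * (a + 1) ≤ (q - 1) * N → q * s ≤ k →
  8 * 2 ^ g * (b * N + 2) ≤ 2 ^ s →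
  2 * (b * N + 2) * (2 ^ s' * (m * N * 2 ^ b)) ≤ 2 ^ s →
  b * N + N * m + 2 ≤ s' * R →
  4 * (2 ^ (b * N) * 2 ^ N * N * 2 ^ b) ≤ 4 ^ h →
  ∃ T : ℕ, 0 < T ∧
    4 * 2 ^ (b * N) * (T - 1) ^ (N ^ k) ≤ T ^ (N ^ k) ∧
    4 * (2 ^ (b * N) * 2 ^ N * N * 2 ^ b) * (2 ^ g * (a + 1) ^ k) ^ h ≤ T ^ h ∧
    4 * (2 ^ (b * N) * 2 ^ (N * m)) * (m * N * 2 ^ b * a ^ k) ^ R ≤ T ^ R

/-- P4: the choice of the parameters. -/
def T_P4 : Prop := ∀ E : ℕ, 8 ≤ E → ∃ K n0 : ℕ, E ≤ K ∧ 2 ≤ K ∧ ∀ n, n0 ≤ n → ∀ w D : ℕ,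
  K * (Nat.log 2 n) ^ 2 ≤ w → K * w ≤ n → K * D * Nat.log 2 n ≤ n * w →
  ∃ N b g k a a0 R h m q s s' : ℕ,
    (1 ≤ N ∧ 1 ≤ k ∧ 1 ≤ g ∧ 2 * g ≤ b ∧ 1 ≤ a0 ∧ a0 ≤ a ∧ b * N ≤ n ∧ k * b ≤ w ∧
      N ≤ 2 ^ b ∧ D < m * (g * (a - a0)) ∧ h + R ≤ 2 ^ g) ∧
    (0 < q ∧ q * (a + 1) ≤ (q - 1) * N ∧ q * s ≤ k ∧
      8 * 2 ^ g * (b * N + 2) ≤ 2 ^ s ∧
      2 * (b * N + 2) * (2 ^ s' * (m * N * 2 ^ b)) ≤ 2 ^ s ∧
      b * N + N * m + 2 ≤ s' * R ∧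
      4 * (2 ^ (b * N) * 2 ^ N * N * 2 ^ b) ≤ 4 ^ h) ∧
    (E * n ≤ E * (a0 * (b - 2 * g)) - E * (N + b * R) + 6 * n ∧
      E * (N + b * R) ≤ E * (a0 * (b - 2 * g)))

/-- P5: from the integer inequality to the final bound. -/
def T_P5 : Prop := ∀ (ε : ℝ) (E n X Y S : ℕ), 0 < ε → 0 < E → 6 ≤ ε * E →
  E * n ≤ E * X - E * Y + 6 * n → E * Y ≤ E * X → 2 ^ X ≤ S * 2 ^ Y →
  (2 : ℝ) ^ ((1 - ε) * n) ≤ S

/-- AB: the abstract theorem. -/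
def T_AB : Prop := ∀ (V : Type) [Fintype V] [DecidableEq V] (N b k g a a0 D m R T h : ℕ)
    (φ : Fin N → Fin b → V),
  Inj2 φ → 1 ≤ k → 1 ≤ g → 2 * g ≤ b → 1 ≤ a0 → a0 ≤ a → D < m * (g * (a - a0)) →
  0 < T → h + R ≤ 2 ^ g →
  4 * 2 ^ (b * N) * (T - 1) ^ (N ^ k) ≤ T ^ (N ^ k) →
  4 * (2 ^ (b * N) * 2 ^ N * N * 2 ^ b) * (2 ^ g * (a + 1) ^ k) ^ h ≤ T ^ h →
  4 * (2 ^ (b * N) * 2 ^ (N * m)) * (m * N * 2 ^ b * a ^ k) ^ R ≤ T ^ R →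
  ∃ F : Finset (Clause V), F.card ≤ N ^ k * 2 ^ (b * k) ∧ (∀ C ∈ F, C.card ≤ k * b) ∧
    (∀ z : V → Bool, ∃ C ∈ F, Falsified C z) ∧
    ∀ S D' : ℕ, D' ≤ D → Nonempty (Refutation F S D') →
      2 ^ (a0 * (b - 2 * g)) ≤ S * 2 ^ (N + b * R)

/-- The main theorem. -/
def T_MAIN : Prop := ∀ ε : ℝ, 0 < ε → ∃ K n0 : ℕ, ∀ n, n0 ≤ n → ∀ w : ℕ,
  K * (Nat.log 2 n) ^ 2 ≤ w → K * w ≤ n →
  ∃ F : Finset (Clause (Fin n)), F.card ≤ 2 ^ (2 * w) ∧ (∀ C ∈ F, C.card ≤ w) ∧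
    (∀ z : Fin n → Bool, ∃ C ∈ F, Falsified C z) ∧
    ∀ S D : ℕ, K * D * Nat.log 2 n ≤ n * w → Nonempty (Refutation F S D) →
      (2 : ℝ) ^ ((1 - ε) * n) ≤ S

end Pool.Agent.H79.RD
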