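import Pool.Agent.H82.RD.Targets

/-!
Module UCO of the project RD on `MP_7ecdd4_nt`: integral coordinates on a subspace.
-/

set_option autoImplicit false

namespace Pool.Agent.H79.RD

open Module Submodule
open Pool.Agent.H82.RD

/-- The coordinate functionals span the dual of a subspace. -/
theorem span_coord {K : Type} [Field K] {r : ℕ} (U : Submodule K (Fin r → K)) :
    span K (Set.range fun l : Fin r => (LinearMap.proj l : (Fin r → K) →ₗ[K] K).domRestrict U) =
      ⊤ := by
  classical
  rw [eq_top_iff]
  intro φ _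
  obtain ⟨ψ, hψ⟩ := LinearMap.dualMap_surjective_of_injective
    (f := U.subtype) U.injective_subtype φ
  have h1 : φ = ∑ l : Fin r, ψ (Pi.single l 1) •
      (LinearMap.proj l : (Fin r → K) →ₗ[K] K).domRestrict U := by
    rw [← hψ]
    ext ⟨y, hy⟩
    simp only [LinearMap.dualMap_apply', LinearMap.coe_comp, Function.comp_apply,
      Submodule.coe_subtype, LinearMap.sum_apply, LinearMap.smul_apply, LinearMap.domRestrict_apply,
      LinearMap.proj_apply, smul_eq_mul]
    conv_lhs => rw [LinearMap.pi_apply_eq_sum_univ ψ y]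
    refine Finset.sum_congr rfl fun l _ => ?_
    rw [smul_eq_mul, mul_comm]
    congr 2
    funext i
    simp [Pi.single_apply, eq_comm]
  rw [h1]
  exact Submodule.sum_mem _ fun l _ => Submodule.smul_mem _ _ (subset_span ⟨l, rfl⟩)

theorem pf_UCO : T_UCO := by
  classical
  intro q _ r U
  set K := ℚ_[q] with hK
  set f : Fin r → Dual K U := fun l => (LinearMap.proj l : (Fin r → K) →ₗ[K] K).domRestrict U
    with hf
  have hspan : span K (Set.range f) = ⊤ := span_coord U
  have hd : finrank K (span K (Set.range f)) = finrank K U := by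
    rw [hspan, finrank_top]
    exact Subspace.dual_finrank_eq
  have h1 := Submodule.exists_fun_fin_finrank_span_eq K (Set.range f)
  rw [hd] at h1
  obtain ⟨v, hv, hvs, hvi⟩ := h1
  choose J₀ hJ₀ using hv
  set e : Basis (Fin (finrank K U)) K (Dual K U) := Basis.mk hvi (by rw [hvs, hspan]) with he
  have : Nonempty (Fin (finrank K U) → Fin r) := ⟨J₀⟩
  obtain ⟨J, hJ⟩ := Finite.exists_max
    (fun J : Fin (finrank K U) → Fin r => ‖e.det (fun i => f (J i))‖)
  have h0 : e.det (fun i => f (J₀ i)) = 1 := by
    have h2 : (fun i => f (J₀ i)) = e := by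
      funext i
      rw [hJ₀, he, Basis.mk_apply]
    rw [h2, Basis.det_self]
  have hpos : 1 ≤ ‖e.det (fun i => f (J i))‖ := by
    have := hJ J₀
    rw [h0, norm_one] at this
    exact this
  have hne : e.det (fun i => f (J i)) ≠ 0 := by
    intro h
    rw [h, norm_zero] at hpos
    linarith
  obtain ⟨hli, hsp⟩ := (Basis.is_basis_iff_det e).2 (isUnit_iff_ne_zero.2 hne)
  have hc : ∀ (l : Fin r) (j : Fin (finrank K U)),
      ‖(Basis.mk hli hsp.ge).coord j (f l)‖ ≤ 1 := by
    intro l j
    have h2 := congrArg (fun φ => φ (f l)) (Basis.det_smul_mk_coord_eq_det_update (e := e) hli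
      hsp.ge j)
    simp only [LinearMap.smul_apply, smul_eq_mul, MultilinearMap.toLinearMap_apply] at h2
    have h3 : Function.update (fun i => f (J i)) j (f l) =
        fun i => f (Function.update J j l i) := by
      funext i
      by_cases hi : i = j
      · subst hi; simp
      · simp [Function.update_of_ne hi]
    rw [h3] at h2
    have h4 := hJ (Function.update J j l)
    have h5 : ‖e.det (fun i => f (J i)) * (Basis.mk hli hsp.ge).coord j (f l)‖ ≤
        ‖e.det (fun i => f (J i))‖ := by
      rw [h2]
      exact h4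
    rw [norm_mul] at h5
    by_contra h6
    push Not at h6
    have h7 : ‖e.det (fun i => f (J i))‖ * 1 <
        ‖e.det (fun i => f (J i))‖ * ‖(Basis.mk hli hsp.ge).coord j (f l)‖ :=
      mul_lt_mul_of_pos_left h6 (by linarith)
    linarith
  refine ⟨J, fun l j => ⟨(Basis.mk hli hsp.ge).coord j (f l), hc l j⟩, fun y hy l => ?_⟩
  have h8 := (Basis.mk hli hsp.ge).sum_repr (f l)
  have h9 := congrArg (fun φ : Dual K U => φ ⟨y, hy⟩) h8
  simp only [LinearMap.sum_apply, LinearMap.smul_apply, smul_eq_mul, Basis.mk_apply] at h9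
  have h10 : ∀ l : Fin r, f l ⟨y, hy⟩ = y l := fun l => rfl
  simp only [h10] at h9
  exact h9.symm

end Pool.Agent.H79.RD
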